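import Pool.Agent.H19.BFL.Stmts2

/-!
# Board kbfo, row TAL: the Taylor polynomials along a line
-/

set_option autoImplicit false

namespace Pool.Agent.H67.BFL

open Finset Real Pool.BFL

variable {n : ℕ}

lemma eval_sh (y x : Fin n → ℝ) (F : Pl n) :
    MvPolynomial.eval x (sh y F) = MvPolynomial.eval (fun i => x i + y i) F := by
  unfold sh
  induction F using MvPolynomial.induction_on with
  | C a => simp
  | add p q hp hq => simp only [map_add, hp, hq]
  | mul_X p i hp => simp only [map_mul, hp, MvPolynomial.aeval_X, MvPolynomial.eval_X, map_add,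
      MvPolynomial.eval_C]

lemma hc_mul_X (P : Pl n) (l : Fin n) (i : ℕ) :
    MvPolynomial.homogeneousComponent (i + 1) (P * MvPolynomial.X l) =
      MvPolynomial.homogeneousComponent i P * MvPolynomial.X l := by
  ext d
  rw [MvPolynomial.coeff_homogeneousComponent, MvPolynomial.coeff_mul_X',
    MvPolynomial.coeff_mul_X']
  by_cases hl : l ∈ d.support
  · rw [if_pos hl, if_pos hl, MvPolynomial.coeff_homogeneousComponent]
    have h1 : Finsupp.single l 1 ≤ d := by
      rw [Finsupp.single_le_iff]
      exact Nat.one_le_iff_ne_zero.mpr (Finsupp.mem_support_iff.mp hl)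
    have h2 : d.degree = (d - Finsupp.single l 1).degree + 1 := by
      conv_lhs => rw [← tsub_add_cancel_of_le h1]
      rw [map_add, Finsupp.degree_single]
    by_cases h : (d - Finsupp.single l 1).degree = i
    · rw [if_pos h, if_pos (by rw [h2, h])]
    · rw [if_neg h, if_neg (by rw [h2]; omega)]
  · rw [if_neg hl, if_neg hl]
    simp

lemma hc_zero_mul_X (P : Pl n) (l : Fin n) :
    MvPolynomial.homogeneousComponent 0 (P * MvPolynomial.X l) = 0 := by
  ext d
  rw [MvPolynomial.coeff_homogeneousComponent, MvPolynomial.coeff_mul_X']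
  by_cases hl : l ∈ d.support
  · have h1 : Finsupp.single l 1 ≤ d := by
      rw [Finsupp.single_le_iff]
      exact Nat.one_le_iff_ne_zero.mpr (Finsupp.mem_support_iff.mp hl)
    have h2 : d.degree = (d - Finsupp.single l 1).degree + 1 := by
      conv_lhs => rw [← tsub_add_cancel_of_le h1]
      rw [map_add, Finsupp.degree_single]
    rw [if_neg (by rw [h2]; omega)]
    simp
  · rw [if_neg hl]
    simp

lemma sh_mul_X (F : Pl n) (l : Fin n) (a : Fin n → ℝ) :
    sh a (F * MvPolynomial.X l) =
      sh a F * MvPolynomial.X l + MvPolynomial.C (a l) * sh a F := by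
  unfold sh
  rw [map_mul, MvPolynomial.aeval_X]
  ring

lemma jt_mul_X (F : Pl n) (l : Fin n) (a : Fin n → ℝ) (i : ℕ) :
    jt (i + 1) (F * MvPolynomial.X l) a =
      jt i F a * MvPolynomial.X l + MvPolynomial.C (a l) * jt (i + 1) F a := by
  unfold jt
  rw [sh_mul_X, map_add, hc_mul_X, MvPolynomial.homogeneousComponent_C_mul]

lemma jt_mul_X_zero (F : Pl n) (l : Fin n) (a : Fin n → ℝ) :
    jt 0 (F * MvPolynomial.X l) a = MvPolynomial.C (a l) * jt 0 F a := by
  unfold jt
  rw [sh_mul_X, map_add, hc_zero_mul_X, MvPolynomial.homogeneousComponent_C_mul, zero_add]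

lemma jt_add (F G : Pl n) (a : Fin n → ℝ) (i : ℕ) : jt i (F + G) a = jt i F a + jt i G a := by
  unfold jt sh
  rw [map_add, map_add]

lemma jt_C (c : ℝ) (a : Fin n → ℝ) (i : ℕ) :
    jt i (MvPolynomial.C c) a = if i = 0 then MvPolynomial.C c else 0 := by
  unfold jt sh
  rw [MvPolynomial.aeval_C, MvPolynomial.algebraMap_eq]
  by_cases h : i = 0
  · subst h
    simp
  · rw [if_neg h]
    exact MvPolynomial.homogeneousComponent_eq_zero i _ (by
      rw [MvPolynomial.totalDegree_C]; omega)

lemma dE_add (E : Fin n → ℝ) (F G : Pl n) : dE E (F + G) = dE E F + dE E G := by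
  unfold dE
  rw [← Finset.sum_add_distrib]
  refine Finset.sum_congr rfl fun i _ => ?_
  rw [map_add, mul_add]

lemma dE_C (E : Fin n → ℝ) (c : ℝ) : dE E (MvPolynomial.C c) = 0 := by
  unfold dE
  simp

lemma dE_C_mul (E : Fin n → ℝ) (c : ℝ) (F : Pl n) :
    dE E (MvPolynomial.C c * F) = MvPolynomial.C c * dE E F := by
  unfold dE
  rw [Finset.mul_sum]
  refine Finset.sum_congr rfl fun i _ => ?_
  rw [MvPolynomial.pderiv_C_mul]
  ring

lemma dE_mul_X (E : Fin n → ℝ) (F : Pl n) (l : Fin n) :
    dE E (F * MvPolynomial.X l) = dE E F * MvPolynomial.X l + MvPolynomial.C (E l) * F := by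
  unfold dE
  rw [Finset.sum_mul]
  have : ∀ i, MvPolynomial.C (E i) * (MvPolynomial.pderiv i) (F * MvPolynomial.X l) =
      MvPolynomial.C (E i) * (MvPolynomial.pderiv i) F * MvPolynomial.X l +
        (if l = i then MvPolynomial.C (E i) * F else 0) := by
    intro i
    rw [MvPolynomial.pderiv_mul, MvPolynomial.pderiv_X]
    by_cases h : l = i
    · subst h
      rw [Pi.single_eq_same, if_pos rfl]
      ring
    · rw [if_neg h, Pi.single_eq_of_ne h]
      ring
  simp only [this]
  rw [Finset.sum_add_distrib, Finset.sum_ite_eq]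
  simp

/-- The jets along a line: values and directional derivatives. -/
lemma jets (y E x : Fin n → ℝ) (F : Pl n) :
    (∀ τ : ℝ, MvPolynomial.eval (fun i => x i - y i - τ * E i)
      (dE E (jt 0 F (fun i => y i + τ * E i))) = 0) ∧
    (∀ i, Continuous (fun τ : ℝ => MvPolynomial.eval (fun i => x i - y i - τ * E i)
      (dE E (jt i F (fun i => y i + τ * E i))))) ∧
    ∀ (i : ℕ) (τ : ℝ), HasDerivAt (fun τ : ℝ => MvPolynomial.eval (fun i => x i - y i - τ * E i)
      (jt i F (fun i => y i + τ * E i)))
      (MvPolynomial.eval (fun i => x i - y i - τ * E i)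
          (dE E (jt (i + 1) F (fun i => y i + τ * E i))) -
        MvPolynomial.eval (fun i => x i - y i - τ * E i)
          (dE E (jt i F (fun i => y i + τ * E i)))) τ := by
  induction F using MvPolynomial.induction_on with
  | C c =>
    have h0 : ∀ (i : ℕ) (τ : ℝ), MvPolynomial.eval (fun i => x i - y i - τ * E i)
        (dE E (jt i (MvPolynomial.C c) (fun i => y i + τ * E i))) = 0 := by
      intro i τ
      rw [jt_C]
      split_ifs
      · rw [dE_C, map_zero]
      · unfold dE
        simp
    refine ⟨fun τ => h0 0 τ, fun i => ?_, fun i τ => ?_⟩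
    · simp only [h0]
      exact continuous_const
    · rw [h0, h0, sub_zero]
      have : (fun τ : ℝ => MvPolynomial.eval (fun i => x i - y i - τ * E i)
          (jt i (MvPolynomial.C c) (fun i => y i + τ * E i))) =
          fun _ => if i = 0 then c else 0 := by
        funext τ
        rw [jt_C]
        split_ifs <;> simp
      rw [this]
      exact hasDerivAt_const τ _
  | add P Q hP hQ =>
    obtain ⟨a1, a2, a3⟩ := hP
    obtain ⟨b1, b2, b3⟩ := hQ
    simp only [jt_add, dE_add, map_add]
    refine ⟨fun τ => by rw [a1, b1, add_zero], fun i => (a2 i).add (b2 i), fun i τ => ?_⟩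
    have := (a3 i τ).add (b3 i τ)
    refine this.congr_deriv ?_
    ring
  | mul_X P l hP =>
    obtain ⟨a1, a2, a3⟩ := hP
    -- the coordinate functions
    have hz : ∀ τ : ℝ, HasDerivAt (fun τ : ℝ => x l - y l - τ * E l) (-E l) τ := by
      intro τ
      have := ((hasDerivAt_id τ).mul_const (E l)).const_sub (x l - y l)
      simpa using this
    have ha : ∀ τ : ℝ, HasDerivAt (fun τ : ℝ => y l + τ * E l) (E l) τ := by
      intro τ
      have := ((hasDerivAt_id τ).mul_const (E l)).const_add (y l)
      simpa using this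
    have hzc : Continuous (fun τ : ℝ => x l - y l - τ * E l) := by fun_prop
    have hac : Continuous (fun τ : ℝ => y l + τ * E l) := by fun_prop
    have gc : ∀ i, Continuous (fun τ : ℝ => MvPolynomial.eval (fun i => x i - y i - τ * E i)
        (jt i P (fun i => y i + τ * E i))) := fun i =>
      continuous_iff_continuousAt.2 fun τ => (a3 i τ).continuousAt
    refine ⟨fun τ => ?_, fun i => ?_, fun i τ => ?_⟩
    · rw [jt_mul_X_zero, dE_C_mul, map_mul, a1, mul_zero]
    · cases i with
      | zero =>
        simp only [jt_mul_X_zero, dE_C_mul]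
        simp only [map_mul, MvPolynomial.eval_C]
        exact hac.mul (a2 0)
      | succ i =>
        simp only [jt_mul_X, dE_add, dE_C_mul, dE_mul_X]
        simp only [map_add, map_mul, MvPolynomial.eval_C, MvPolynomial.eval_X]
        exact (((a2 i).mul hzc).add (continuous_const.mul (gc i))).add (hac.mul (a2 (i + 1)))
    · cases i with
      | zero =>
        simp only [jt_mul_X_zero, jt_mul_X, dE_add, dE_C_mul, dE_mul_X]
        simp only [map_add, map_mul, MvPolynomial.eval_C, MvPolynomial.eval_X]
        have := (ha τ).mul (a3 0 τ)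
        refine this.congr_deriv ?_
        have h0 := a1 τ
        rw [h0]
        ring
      | succ i =>
        simp only [jt_mul_X, dE_add, dE_C_mul, dE_mul_X]
        simp only [map_add, map_mul, MvPolynomial.eval_C, MvPolynomial.eval_X]
        have := ((a3 i τ).mul (hz τ)).add ((ha τ).mul (a3 (i + 1) τ))
        refine this.congr_deriv ?_
        ring

lemma eval_tay (j : ℕ) (F : Pl n) (a x : Fin n → ℝ) :
    MvPolynomial.eval x (tay j F a) =
      ∑ i ∈ range j, MvPolynomial.eval (fun l => x l - a l) (jt i F a) := by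
  unfold tay
  rw [map_sum]
  refine Finset.sum_congr rfl fun i _ => ?_
  rw [eval_sh]
  rfl

/-- Row TAL. -/
theorem tal_thm : TALStmt := by
  intro n j F y E s x
  obtain ⟨h1, h2, h3⟩ := jets y E x F
  -- the function of the time
  have key : ∀ τ : ℝ, HasDerivAt (fun τ : ℝ => MvPolynomial.eval x
      (tay j F (fun i => y i + τ * E i)))
      (MvPolynomial.eval (fun i => x i - y i - τ * E i)
        (dE E (jt j F (fun i => y i + τ * E i)))) τ := by
    intro τ
    have e : (fun τ : ℝ => MvPolynomial.eval x (tay j F (fun i => y i + τ * E i))) =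
        fun τ : ℝ => ∑ i ∈ range j, MvPolynomial.eval (fun l => x l - y l - τ * E l)
          (jt i F (fun i => y i + τ * E i)) := by
      funext τ
      rw [eval_tay]
      refine Finset.sum_congr rfl fun i _ => ?_
      congr 2
      funext l
      ring
    rw [e]
    have := HasDerivAt.fun_sum (u := range j) (fun i _ => h3 i τ)
    refine this.congr_deriv ?_
    rw [Finset.sum_range_sub (fun i => MvPolynomial.eval (fun i => x i - y i - τ * E i)
      (dE E (jt i F (fun i => y i + τ * E i)))), h1, sub_zero]
  have hint := intervalIntegral.integral_eq_sub_of_hasDerivAt (a := 0) (b := s)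
    (fun τ _ => key τ) ((h2 j).intervalIntegrable 0 s)
  rw [hint]
  simp

end Pool.Agent.H67.BFL
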