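import Pool.Agent.H67.BFL.Clo3

/-!
# Board kbfo, row CLO
-/

set_option autoImplicit false

namespace Pool.Agent.H67.BFL

open Finset MvPolynomial Pool.BFL
open Pool.Agent.H49.Ent Pool.Agent.H32.Dense Pool.STK Pool.KS3 Pool.KA Pool.KSAT Pool.K2S Pool.PB

variable {m J : ℕ}

lemma Y_eq (F : Fam m J) (i₁ : Fin m) (r : ℕ) {Γ : Type} (c : ℕ → F.Ω → Γ)
    (y₀ : ℕ → Γ → Fin m → ℝ) (Φ : ℕ → Γ → Pl m) (g : ℕ → ℕ) (ω : F.Ω) :
    (fdat F i₁ r c y₀ Φ g).Y J ω = bp F i₁ ω := by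
  funext i
  change Function.update (F.u ω) i₁ 0 i + (F.T ω : ℝ) / 2 ^ J * Function.update (F.d ω) i₁ 1 i =
    Function.update (F.x ω) i₁ (F.t ω) i
  by_cases hi : i = i₁
  · subst hi
    rw [Function.update_self, Function.update_self, Function.update_self]
    unfold Fam.t
    ring
  · rw [Function.update_of_ne hi, Function.update_of_ne hi, Function.update_of_ne hi]
    rfl

/-- The offset of the window of a label. -/
def ve {M : ℕ} (e : Option (Fin (M + 1))) : ℕ := e.elim 0 fun v => (v : ℕ)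

theorem clo_thm (hRGR : RGRStmt) : CLOStmt := by
  intro m K M κ hm hκ
  obtain ⟨Cg, hCg0, hCg⟩ := grad_ball m K
  obtain ⟨z₁, hz₁⟩ := clo_gen hRGR m K ((M + 1) * (M + 1 + 1)) (κ / 8) (by positivity)
  refine ⟨max z₁ ⌈(2 + 2 * m + Cg) * (8 / κ)⌉₊, ?_⟩
  intro J r w₀ z F i₁ A g tp hz hr hw hg hball htube
  have hza := (le_max_left _ _).trans hz
  have hzb := (le_max_right _ _).trans hz
  have hz2 : (2 + 2 * m + Cg) * (8 / κ) ≤ z := (Nat.le_ceil _).trans (by exact_mod_cast hzb)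
  obtain ⟨ε, hε⟩ : ∃ ε : ℝ, ε = Real.exp (κ / 8 * z) := ⟨_, rfl⟩
  have hε0 : 0 < ε := by rw [hε]; exact Real.exp_pos _
  have hε2 : 2 + 2 * m + Cg ≤ ε := by
    have h1 := Real.add_one_le_exp (κ / 8 * z)
    have h2 := mul_le_mul_of_nonneg_left hz2 (by positivity : (0 : ℝ) ≤ κ / 8)
    have e : κ / 8 * ((2 + 2 * m + Cg) * (8 / κ)) = 2 + 2 * m + Cg := by field_simp
    rw [hε]
    linarith
  have hm0 : (0 : ℝ) ≤ m := by positivity
  have hε1 : 1 ≤ ε := by linarith
  have hpw : ∀ j : ℕ, j ≤ 8 → ε ^ j ≤ Real.exp (κ * z) := by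
    intro j hj
    rw [hε, ← Real.exp_nat_mul]
    refine Real.exp_le_exp.2 ?_
    have hj' : (j : ℝ) ≤ 8 := by exact_mod_cast hj
    have : 0 ≤ κ / 8 * z := by positivity
    calc (j : ℝ) * (κ / 8 * z) ≤ 8 * (κ / 8 * z) := mul_le_mul_of_nonneg_right hj' this
      _ = κ * z := by ring
  have hadd : ∀ P : ℕ, (1 : ℝ) / 2 ^ P + ε / 2 ^ P ≤ Real.exp (κ * z) / 2 ^ P := by
    intro P
    rw [← add_div]
    refine div_le_div_of_nonneg_right ?_ (by positivity)
    have := hpw 2 (by norm_num)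
    nlinarith
  -- the labels
  obtain ⟨lv, hlv⟩ : ∃ lv : Fin (M + 1) × Option (Fin (M + 1)) → ℕ,
    ∀ x, lv x = w₀ + (x.1 : ℕ) * z := ⟨_, fun _ => rfl⟩
  obtain ⟨wl, hwl⟩ : ∃ wl : Fin (M + 1) × Option (Fin (M + 1)) → ℕ,
    ∀ x, wl x = w₀ + ((x.1 : ℕ) - ve x.2) * z := ⟨_, fun _ => rfl⟩
  obtain ⟨P, hPn, hPs⟩ : ∃ P : Fin (M + 1) × Option (Fin (M + 1)) → ℕ,
      (∀ k, P (k, none) = g k) ∧ ∀ k v, P (k, some v) = tp ((k : ℕ) - v) v :=
    ⟨fun x => x.2.elim (g x.1) fun v => tp ((x.1 : ℕ) - v) v, fun _ => rfl, fun _ _ => rfl⟩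
  have hex : ∀ x : Fin (M + 1) × Option (Fin (M + 1)),
      ∃ (G : (Fin m → ℤ) × (ℕ × F.ζ) → Pl m)
        (H : ((Fin m → ℝ) × (Fin m → ℝ)) × F.ζ × ℕ → Pl m),
      (∀ y, (G y).totalDegree ≤ K) ∧ (∀ s, (H s).totalDegree ≤ K) ∧ ∀ ω, A ω →
        (ve x.2 ≤ x.1 → |F.x ω i₁ - eval (bp F i₁ ω) (G (ptr F r ω))| ≤ 1 / 2 ^ P x ∧
          ∀ j, |eval (bp F i₁ ω) (pderiv j (G (ptr F r ω)))| ≤ 2 * m) ∧
        ∀ b : Fin m → ℝ, (∀ j, |b j - bp F i₁ ω j| ≤ 1 / 2 ^ lv x) →
          |eval b (G (ptr F r ω)) - eval b (H (slam F (wl x) ω))| ≤ 1 / 2 ^ P x := by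
    rintro ⟨k, e⟩
    have hk : (k : ℕ) ≤ M := by omega
    rcases e with _ | v
    · obtain ⟨G, H, h1, h2, h3⟩ := hball k hk
      refine ⟨G, H, h1, h2, fun ω hω => ?_⟩
      obtain ⟨h4, h5, h6⟩ := h3 ω hω
      rw [hPn, hwl, hlv]
      exact ⟨fun _ => ⟨h4, h5⟩, h6⟩
    · by_cases hv : (v : ℕ) ≤ k
      · obtain ⟨G, H, h1, h2, h3⟩ := htube ((k : ℕ) - v) v (by omega)
        refine ⟨G, H, h1, h2, fun ω hω => ?_⟩
        obtain ⟨h4, h5, h6⟩ := h3 ω hω
        rw [hPs, hwl, hlv]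
        rw [Nat.sub_add_cancel hv] at h6
        exact ⟨fun _ => ⟨h4, h5⟩, h6⟩
      · refine ⟨fun _ => 0, fun _ => 0, fun _ => ?_, fun _ => ?_, fun ω hω => ⟨fun h => ?_, ?_⟩⟩
        · rw [totalDegree_zero]; exact Nat.zero_le _
        · rw [totalDegree_zero]; exact Nat.zero_le _
        · exact absurd h hv
        · intro b _
          rw [sub_self, abs_zero]
          positivity
  choose G H hG hH hGH using hex
  obtain ⟨cl, y₀, Φ, A', hA', hPA, c1, c2, c3, c4, c5, c6⟩ := hz₁ J r z F i₁ A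
    (Fin (M + 1) × Option (Fin (M + 1))) lv wl P G H hza hr (by
      rw [Fintype.card_prod, Fintype.card_option, Fintype.card_fin]) (fun x => by
      rw [hlv, hwl]
      exact Nat.add_le_add_left (Nat.mul_le_mul_right _ (Nat.sub_le _ _)) _) (fun x => by
      rw [hlv]
      have h1 : (x.1 : ℕ) ≤ M + 1 := by omega
      have h2 := Nat.mul_le_mul_right z h1
      omega) hG hH (fun x ω hω b hb => (hGH x ω hω).2 b hb)
  rw [← hε] at c4 c6
  -- indices
  obtain ⟨ix, hix1, hix2, hix3⟩ : ∃ ix : ℕ → Option ℕ → Fin (M + 1) × Option (Fin (M + 1)),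
      (∀ k e, k ≤ M → ((ix k e).1 : ℕ) = k) ∧ (∀ k, ix k none = ((ix k none).1, none)) ∧
      ∀ k v, v ≤ M → ∃ v' : Fin (M + 1), (v' : ℕ) = v ∧ ix k (some v) = ((ix k (some v)).1, some v')
      := by
    refine ⟨fun k e => (Fin.ofNat (M + 1) k, e.map (Fin.ofNat (M + 1))), ?_, ?_, ?_⟩
    · intro k e hk
      change k % (M + 1) = k
      exact Nat.mod_eq_of_lt (by omega)
    · intro k
      rfl
    · intro k v hv
      exact ⟨Fin.ofNat (M + 1) v, Nat.mod_eq_of_lt (by omega), rfl⟩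
  have hlvx : ∀ k e, k ≤ M → lv (ix k e) = w₀ + k * z := by
    intro k e hk
    rw [hlv, hix1 k e hk]
  have hPx : ∀ k, k ≤ M → P (ix k none) = g k := by
    intro k hk
    rw [hix2, hPn, hix1 k none hk]
  have hvx : ∀ k, ve (ix k none).2 ≤ (ix k none).1 := by
    intro k
    rw [hix2]
    exact Nat.zero_le _
  refine ⟨Fin (M + 1) × Option (Fin (M + 1)) → Lbl m,
    fun k ω x => if (x.1 : ℕ) ≤ k then cl x ω else ((0, 0), 0),
    fun k γ => y₀ (ix k none) (γ (ix k none)), fun k γ => Φ (ix k none) (γ (ix k none)), A', hA',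
    hPA, ?_, ?_⟩
  · have hc : ∀ k ≤ M, ∀ ω : F.Ω, (if ((ix k none).1 : ℕ) ≤ k then cl (ix k none) ω
        else ((0, 0), 0) : Lbl m) = cl (ix k none) ω := by
      intro k hk ω
      rw [if_pos (hix1 k none hk).le]
    refine ⟨?_, ?_, ?_, ?_, ?_, ?_, ?_, ?_⟩
    · intro k hk ω ω' _ _ h
      funext x
      change (if (x.1 : ℕ) ≤ k then cl x ω else ((0, 0), 0) : Lbl m) =
        if (x.1 : ℕ) ≤ k then cl x ω' else ((0, 0), 0)
      by_cases hx : (x.1 : ℕ) ≤ k
      · rw [if_pos hx, if_pos hx]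
        exact c1 x ω ω' h
      · rw [if_neg hx, if_neg hx]
    · intro k hk ω ω' hω hω' h
      funext x
      change (if (x.1 : ℕ) ≤ k then cl x ω else ((0, 0), 0) : Lbl m) =
        if (x.1 : ℕ) ≤ k then cl x ω' else ((0, 0), 0)
      by_cases hx : (x.1 : ℕ) ≤ k
      · rw [if_pos hx, if_pos hx]
        refine c2 x ω ω' hω hω' ?_
        have h1 : ((F.l ω, F.Z ω), F.T ω / 2 ^ (J - (w₀ + k * z))) =
            ((F.l ω', F.Z ω'), F.T ω' / 2 ^ (J - (w₀ + k * z))) := h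
        have h2 : slam F (w₀ + k * z) ω = slam F (w₀ + k * z) ω' := by
          rw [Prod.mk.injEq, Prod.mk.injEq] at h1
          unfold slam Fam.T1
          rw [h1.1.1, h1.1.2, h1.2]
        have h3 : lv x ≤ w₀ + k * z := by
          rw [hlv]
          exact Nat.add_le_add_left (Nat.mul_le_mul_right _ hx) _
        have h4 : w₀ + k * z ≤ J := by
          have h5 := Nat.mul_le_mul_right z (show k ≤ M + 1 by omega)
          omega
        rw [slam_coarse F h3 h4 ω, slam_coarse F h3 h4 ω', h2]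
      · rw [if_neg hx, if_neg hx]
    · intro k hk ω ω' _ _ h
      funext x
      change (if (x.1 : ℕ) ≤ k then cl x ω else ((0, 0), 0) : Lbl m) =
        if (x.1 : ℕ) ≤ k then cl x ω' else ((0, 0), 0)
      have h1 : (if (x.1 : ℕ) ≤ k + 1 then cl x ω else ((0, 0), 0) : Lbl m) =
        if (x.1 : ℕ) ≤ k + 1 then cl x ω' else ((0, 0), 0) := congrFun h x
      by_cases hx : (x.1 : ℕ) ≤ k
      · rw [if_pos hx, if_pos hx]
        rwa [if_pos (hx.trans (Nat.le_succ k)), if_pos (hx.trans (Nat.le_succ k))] at h1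
      · rw [if_neg hx, if_neg hx]
    · intro k hk ω ω' _ _ h
      have h1 : (if ((ix k none).1 : ℕ) ≤ k then cl (ix k none) ω else ((0, 0), 0) : Lbl m) =
        if ((ix k none).1 : ℕ) ≤ k then cl (ix k none) ω' else ((0, 0), 0) :=
        congrFun h (ix k none)
      rw [hc k hk, hc k hk] at h1
      have h2 := c3 (ix k none) ω
      have h3 := c3 (ix k none) ω'
      rw [hlvx k none hk] at h2 h3
      rw [h1, h3] at h2
      exact h2.symm
    · intro k hk ω hω i
      rw [Y_eq]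
      change |bp F i₁ ω i - y₀ (ix k none) (if ((ix k none).1 : ℕ) ≤ k then cl (ix k none) ω
        else ((0, 0), 0)) i| ≤ _
      rw [hc k hk]
      have h1 := c4 (ix k none) ω i
      rw [hlvx k none hk] at h1
      refine h1.trans (div_le_div_of_nonneg_right ?_ (by positivity))
      have := hpw 1 (by norm_num)
      rwa [pow_one] at this
    · intro k x
      exact c5 _ _
    · intro k hk ω hω
      change |F.x ω i₁ - eval ((fdat F i₁ r _ _ _ g).Y J ω) (Φ (ix k none)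
        (if ((ix k none).1 : ℕ) ≤ k then cl (ix k none) ω else ((0, 0), 0)))| ≤
          Real.exp (κ * z) / 2 ^ g k
      rw [Y_eq, hc k hk]
      have h1 := ((hGH (ix k none) ω (hA' ω hω)).1 (hvx k)).1
      have h2 := c6 (ix k none) ω hω (bp F i₁ ω) (fun j => by
        rw [sub_self, abs_zero]; positivity)
      rw [hPx k hk] at h1 h2
      exact (abs_sub_le _ _ _).trans ((add_le_add h1 h2).trans (hadd _))
    · intro k hk ω hω i
      change |eval ((fdat F i₁ r _ _ _ g).Y J ω) (pderiv i (Φ (ix k none)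
        (if ((ix k none).1 : ℕ) ≤ k then cl (ix k none) ω else ((0, 0), 0))))| ≤
          Real.exp (κ * z)
      rw [Y_eq, hc k hk]
      have h1 := ((hGH (ix k none) ω (hA' ω hω)).1 (hvx k)).2 i
      have h2 := hCg (G (ix k none) (ptr F r ω) - Φ (ix k none) (cl (ix k none) ω)) (bp F i₁ ω)
        (1 / 2 ^ lv (ix k none)) (ε / 2 ^ P (ix k none))
        ((totalDegree_sub _ _).trans (max_le (hG _ _) (c5 _ _))) (by positivity)
        (fun b hb => by
          rw [map_sub]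
          exact c6 (ix k none) ω hω b hb) i
      rw [map_sub, map_sub, hPx k hk, hlvx k none hk] at h2
      have h3 : (2 : ℝ) ^ (w₀ + k * z) ≤ 2 ^ g k * ε ^ 4 := by
        have h4 := hg k hk
        have e1 : ∀ n : ℕ, (2 : ℝ) ^ n = Real.exp (n * Real.log 2) := by
          intro n
          rw [Real.exp_nat_mul, Real.exp_log (by norm_num)]
        rw [e1, e1, hε, ← Real.exp_nat_mul, ← Real.exp_add]
        refine Real.exp_le_exp.2 ?_
        have hl : Real.log 2 ≤ 1 := by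
          have := Real.log_two_lt_d9
          linarith
        have hl0 : 0 < Real.log 2 := Real.log_pos (by norm_num)
        have h5 := mul_le_mul_of_nonneg_right h4 hl0.le
        have h6 : κ / 2 * z * Real.log 2 ≤ κ / 2 * z * 1 :=
          mul_le_mul_of_nonneg_left hl (by positivity)
        push_cast at h5 ⊢
        nlinarith
      have h7 : Cg * (ε / 2 ^ g k) / (1 / 2 ^ (w₀ + k * z)) ≤ Cg * ε ^ 5 := by
        have hG2 : (0 : ℝ) < 2 ^ g k := by positivity
        have e2 : Cg * (ε / 2 ^ g k) / (1 / 2 ^ (w₀ + k * z)) =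
            Cg * ε * (2 ^ (w₀ + k * z) / 2 ^ g k) := by field_simp
        rw [e2]
        have h8 : (2 : ℝ) ^ (w₀ + k * z) / 2 ^ g k ≤ ε ^ 4 := by
          rw [div_le_iff₀ hG2]
          linarith
        calc Cg * ε * (2 ^ (w₀ + k * z) / 2 ^ g k) ≤ Cg * ε * ε ^ 4 :=
              mul_le_mul_of_nonneg_left h8 (by positivity)
          _ = Cg * ε ^ 5 := by ring
      have h9 : 2 * (m : ℝ) + Cg * ε ^ 5 ≤ ε ^ 6 := by
        have h10 : (1 : ℝ) ≤ ε ^ 5 := one_le_pow₀ hε1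
        have h11 : 2 * (m : ℝ) * 1 ≤ 2 * m * ε ^ 5 :=
          mul_le_mul_of_nonneg_left h10 (by positivity)
        have h12 : (2 * m + Cg) * ε ^ 5 ≤ ε * ε ^ 5 :=
          mul_le_mul_of_nonneg_right (by linarith) (by positivity)
        have e3 : ε ^ 6 = ε * ε ^ 5 := by ring
        rw [e3]
        linarith
      have h13 := hpw 6 (by norm_num)
      have h14 := abs_le.1 h1
      have h15 := abs_le.1 h2
      rw [abs_le]
      constructor <;> linarith [h14.1, h14.2, h15.1, h15.2]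
  · intro k v hkv
    obtain ⟨v', hv', hxe⟩ := hix3 (k + v) v (by omega)
    have hx1 := hix1 (k + v) (some v) hkv
    obtain ⟨x, hx⟩ : ∃ x, x = ix (k + v) (some v) := ⟨_, rfl⟩
    rw [← hx] at hx1 hxe
    have hve : ve x.2 = v := by
      rw [hxe]
      exact hv'
    have hP : P x = tp k v := by
      rw [hxe, hPs, hx1, hv', Nat.add_sub_cancel]
    have hw1 : wl x = w₀ + k * z := by
      rw [hwl, hx1, hve, Nat.add_sub_cancel]
    have hl1 : lv x = w₀ + (k + v) * z := by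
      rw [hlv, hx1]
    refine ⟨fun s => H x (s.1.1, s.1.2, s.2), fun γ => Φ x (γ x), fun s => hH _ _,
      fun γ => c5 _ _, ?_⟩
    intro ω hω
    have hcx : (if (x.1 : ℕ) ≤ k + v then cl x ω else ((0, 0), 0) : Lbl m) = cl x ω := by
      rw [if_pos hx1.le]
    have h1 := ((hGH x ω (hA' ω hω)).1 (by rw [hve, hx1]; omega)).1
    have h2 := c6 x ω hω
    have h3 := (hGH x ω (hA' ω hω)).2
    rw [hP] at h1 h2 h3
    rw [hl1] at h2 h3
    rw [hw1] at h3
    constructor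
    · change |F.x ω i₁ - eval (bp F i₁ ω) (Φ x
        (if (x.1 : ℕ) ≤ k + v then cl x ω else ((0, 0), 0)))| ≤ _
      rw [hcx]
      have h4 := h2 (bp F i₁ ω) (fun j => by rw [sub_self, abs_zero]; positivity)
      exact (abs_sub_le _ _ _).trans ((add_le_add h1 h4).trans (hadd _))
    · intro b hb
      change |eval b (H x (slam F (w₀ + k * z) ω)) - eval b (Φ x
        (if (x.1 : ℕ) ≤ k + v then cl x ω else ((0, 0), 0)))| ≤ _
      rw [hcx]
      have h4 := h2 b hb
      have h5 := h3 b hb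
      rw [abs_sub_comm] at h5
      exact (abs_sub_le _ _ _).trans ((add_le_add h5 h4).trans (hadd _))

end Pool.Agent.H67.BFL
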