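import Pool.Agent.H1.BFL.JTB

/-!
# Board kbfo, row CLO: rounding of polynomials
-/

set_option autoImplicit false

namespace Pool.Agent.H67.BFL

open Finset MvPolynomial Pool.BFL
open Pool.Agent.H36.KBX (bx mem_bx shift eval_shift totalDegree_shift coef_bound eval_bound)
open Pool.Agent.H1.BFL (scl coeff_scl totalDegree_scl eval_scl)

variable {n : ℕ}

/-- The polynomial `P (s x + c)`. -/
noncomputable def nrm (s : ℝ) (c : Fin n → ℝ) (P : Pl n) : Pl n := scl s (shift c P)

lemma eval_nrm (s : ℝ) (c : Fin n → ℝ) (P : Pl n) (v : Fin n → ℝ) :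
    eval v (nrm s c P) = eval (fun i => s * v i + c i) P := by
  unfold nrm
  rw [eval_scl, eval_shift]

lemma deg_nrm (s : ℝ) (c : Fin n → ℝ) (P : Pl n) : (nrm s c P).totalDegree ≤ P.totalDegree :=
  (totalDegree_scl _ _).trans (totalDegree_shift _ _)

lemma coeff_nrm_sub (s : ℝ) (c : Fin n → ℝ) (P Q : Pl n) (d : Fin n →₀ ℕ) :
    coeff d (nrm s c (P - Q)) = coeff d (nrm s c P) - coeff d (nrm s c Q) := by
  unfold nrm
  rw [coeff_scl, coeff_scl, coeff_scl]
  unfold shift
  rw [map_sub, coeff_sub]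
  ring

lemma deg_le_bx {K : ℕ} {d : Fin n →₀ ℕ} (h : d.degree ≤ K) : d ∈ bx n K := by
  rw [mem_bx]
  intro i
  refine le_trans ?_ h
  rw [Finsupp.degree_eq_sum]
  exact Finset.single_le_sum (f := fun i => d i) (fun _ _ => Nat.zero_le _) (Finset.mem_univ i)

/-- The polynomial of degree at most `K` with the coefficients `a`. -/
noncomputable def pl (K : ℕ) (a : (Fin n →₀ ℕ) → ℝ) : Pl n :=
  ∑ d ∈ (bx n K).filter (fun d => d.degree ≤ K), monomial d (a d)

lemma coeff_pl (K : ℕ) (a : (Fin n →₀ ℕ) → ℝ) (d : Fin n →₀ ℕ) :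
    coeff d (pl K a) = if d.degree ≤ K then a d else 0 := by
  classical
  unfold pl
  rw [coeff_sum]
  simp only [coeff_monomial]
  rw [Finset.sum_ite_eq']
  have hm : (d ∈ (bx n K).filter (fun d => d.degree ≤ K)) ↔ d.degree ≤ K := by
    rw [Finset.mem_filter]
    exact ⟨fun h => h.2, fun h => ⟨deg_le_bx h, h⟩⟩
  by_cases h : d.degree ≤ K
  · rw [if_pos (hm.2 h), if_pos h]
  · rw [if_neg (fun h' => h (hm.1 h')), if_neg h]

lemma deg_pl (K : ℕ) (a : (Fin n →₀ ℕ) → ℝ) : (pl K a).totalDegree ≤ K := by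
  unfold pl
  refine totalDegree_finsetSum_le fun d hd => ?_
  refine (totalDegree_monomial_le _ _).trans ?_
  rw [Finset.mem_filter] at hd
  exact hd.2

/-- The polynomial with the coefficients `a` in the variable `(b - c) / s`. -/
noncomputable def rcs (K : ℕ) (s : ℝ) (c : Fin n → ℝ) (a : (Fin n →₀ ℕ) → ℝ) : Pl n :=
  nrm (1 / s) (fun i => -(c i / s)) (pl K a)

lemma deg_rcs (K : ℕ) (s : ℝ) (c : Fin n → ℝ) (a : (Fin n →₀ ℕ) → ℝ) :
    (rcs K s c a).totalDegree ≤ K := (deg_nrm _ _ _).trans (deg_pl _ _)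

lemma coeff_eq_zero {K : ℕ} {P : Pl n} (hP : P.totalDegree ≤ K) {d : Fin n →₀ ℕ}
    (hd : ¬ d.degree ≤ K) : coeff d P = 0 := by
  by_contra h
  have h1 := le_totalDegree (mem_support_iff.2 h)
  have h2 : (d.sum fun _ e => e) = d.degree := by
    rw [Finsupp.degree_eq_sum, Finsupp.sum_fintype _ _ fun _ => rfl]
  rw [h2] at h1
  exact hd (h1.trans hP)

/-- Rounded coefficients give close values. -/
lemma rcs_near {K : ℕ} {P : Pl n} (hP : P.totalDegree ≤ K) {s μ : ℝ} (hs : 0 < s) (hμ : 0 ≤ μ)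
    (c : Fin n → ℝ) (a : (Fin n →₀ ℕ) → ℝ)
    (ha : ∀ d, d.degree ≤ K → |coeff d (nrm s c P) - a d| ≤ μ) (b : Fin n → ℝ)
    (hb : ∀ i, |b i - c i| ≤ 4 * s) :
    |eval b P - eval b (rcs K s c a)| ≤ (bx n K).card * (μ * 4 ^ (n * K)) := by
  have e1 : eval b P = eval (fun i => (b i - c i) / s) (nrm s c P) := by
    rw [eval_nrm]
    congr 1
    congr 1
    funext i
    field_simp
    ring
  have e2 : eval b (rcs K s c a) = eval (fun i => (b i - c i) / s) (pl K a) := by
    unfold rcs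
    rw [eval_nrm]
    congr 1
    congr 1
    funext i
    field_simp
    ring
  rw [e1, e2, ← map_sub]
  refine eval_bound _ ?_ μ 4 (by norm_num) ?_ _ ?_
  · refine (totalDegree_sub _ _).trans (max_le ((deg_nrm _ _ _).trans hP) (deg_pl _ _))
  · intro d
    rw [coeff_sub, coeff_pl]
    by_cases hd : d.degree ≤ K
    · rw [if_pos hd]; exact ha d hd
    · rw [if_neg hd, coeff_eq_zero ((deg_nrm _ _ _).trans hP) hd, sub_zero, abs_zero]
      exact hμ
  · intro i
    rw [abs_div, abs_of_pos hs, div_le_iff₀ hs]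
    exact hb i

/-- A polynomial which is small on a small ball has small coefficients on a larger ball. -/
lemma coef_ball (n K : ℕ) : ∃ C : ℝ, 0 ≤ C ∧ ∀ (P : Pl n) (y c : Fin n → ℝ) (ρ q S : ℝ),
    P.totalDegree ≤ K → 0 < ρ → 1 ≤ q → (∀ i, |y i - c i| ≤ 2 * (q * ρ)) →
    (∀ b : Fin n → ℝ, (∀ i, |b i - y i| ≤ ρ) → |eval b P| ≤ S) →
    ∀ d, |coeff d (nrm (q * ρ) c P)| ≤ C * q ^ (n * K) * S := by
  obtain ⟨C1, hC0, hC⟩ := coef_bound n K
  refine ⟨C1 * ((bx n K).card * (C1 * 3 ^ (n * K))), by positivity, ?_⟩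
  intro P y c ρ q S hP hρ hq hyc hS d
  have hS0 : 0 ≤ S := (abs_nonneg _).trans (hS y fun i => by simpa using hρ.le)
  have h1 := hC (nrm ρ y P) S ((deg_nrm _ _ _).trans hP) (by
    intro v hv
    rw [eval_nrm]
    refine hS _ fun i => ?_
    have e : ρ * v i + y i - y i = ρ * v i := by ring
    rw [e, abs_mul, abs_of_pos hρ]
    calc ρ * |v i| ≤ ρ * 1 := mul_le_mul_of_nonneg_left (hv i) hρ.le
      _ = ρ := mul_one _)
  have h2 : ∀ w : Fin n → ℝ, (∀ i, |w i| ≤ 1) → |eval w (nrm (q * ρ) c P)| ≤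
      (bx n K).card * (C1 * S * (3 * q) ^ (n * K)) := by
    intro w hw
    have e : eval w (nrm (q * ρ) c P) =
        eval (fun i => (q * ρ * w i + c i - y i) / ρ) (nrm ρ y P) := by
      rw [eval_nrm, eval_nrm]
      congr 1
      congr 1
      funext i
      field_simp
      ring
    rw [e]
    refine eval_bound _ ((deg_nrm _ _ _).trans hP) _ _ (by linarith) h1 _ fun i => ?_
    rw [abs_div, abs_of_pos hρ, div_le_iff₀ hρ]
    have h3 : |q * ρ * w i| ≤ q * ρ := by
      rw [abs_mul, abs_of_pos (by positivity : (0 : ℝ) < q * ρ)]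
      calc q * ρ * |w i| ≤ q * ρ * 1 := mul_le_mul_of_nonneg_left (hw i) (by positivity)
        _ = q * ρ := mul_one _
    have h4 := hyc i
    rw [abs_le] at h3 h4 ⊢
    constructor <;> nlinarith [h3.1, h3.2, h4.1, h4.2]
  refine (hC (nrm (q * ρ) c P) _ ((deg_nrm _ _ _).trans hP) h2 d).trans (le_of_eq ?_)
  rw [mul_pow]
  ring

lemma coeff_shift_zero (y : Fin n → ℝ) (P : Pl n) : coeff 0 (shift y P) = eval y P := by
  have h1 : coeff 0 (shift y P) = constantCoeff (shift y P) := rfl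
  have h2 : constantCoeff (shift y P) = eval (fun _ => (0 : ℝ)) (shift y P) := by
    rw [constantCoeff_eq, eval_eq']
    symm
    rw [Finset.sum_eq_single (0 : Fin n →₀ ℕ)]
    · simp
    · intro d _ hd
      obtain ⟨i, hi⟩ : ∃ i, d i ≠ 0 := by
        by_contra h
        push Not at h
        exact hd (Finsupp.ext h)
      have : ∏ i, (0 : ℝ) ^ d i = 0 := Finset.prod_eq_zero (Finset.mem_univ i) (zero_pow hi)
      rw [this, mul_zero]
    · intro h
      rw [notMem_support_iff.1 h, zero_mul]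
  rw [h1, h2, eval_shift]
  congr 1
  congr 1
  funext i
  ring

lemma coeff_shift_single (y : Fin n → ℝ) (P : Pl n) (i : Fin n) :
    coeff (Finsupp.single i 1) (shift y P) = eval y (pderiv i P) := by
  classical
  induction P using MvPolynomial.induction_on with
  | C a =>
    rw [pderiv_C, map_zero]
    unfold shift
    rw [bind₁_C_right, coeff_C, if_neg]
    intro h
    have := DFunLike.congr_fun h i
    simp at this
  | add P Q hP hQ =>
    rw [map_add, map_add, ← hP, ← hQ]
    unfold shift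
    rw [map_add, coeff_add]
  | mul_X P l hP =>
    have e1 : shift y (P * X l) = shift y P * X l + C (y l) * shift y P := by
      unfold shift
      rw [map_mul, bind₁_X_right]
      ring
    rw [e1, coeff_add, coeff_C_mul, coeff_mul_X', hP, pderiv_mul, pderiv_X]
    by_cases h : l = i
    · subst h
      rw [if_pos (by simp), Pi.single_eq_same]
      rw [tsub_self, coeff_shift_zero]
      simp only [map_add, map_mul, eval_X, map_one, mul_one]
      ring
    · rw [if_neg (by
        rw [Finsupp.mem_support_iff, not_not, Finsupp.single_apply, if_neg (fun h' => h h'.symm)]),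
        Pi.single_eq_of_ne h]
      simp only [map_add, map_mul, eval_X, map_zero, mul_zero, add_zero, zero_add]
      ring

/-- The gradient at the centre. -/
lemma grad_ball (n K : ℕ) : ∃ C : ℝ, 0 ≤ C ∧ ∀ (P : Pl n) (y : Fin n → ℝ) (r S : ℝ),
    P.totalDegree ≤ K → 0 < r →
    (∀ b : Fin n → ℝ, (∀ i, |b i - y i| ≤ r) → |eval b P| ≤ S) →
    ∀ i, |eval y (pderiv i P)| ≤ C * S / r := by
  obtain ⟨C1, hC0, hC⟩ := coef_bound n K
  refine ⟨C1, hC0, ?_⟩
  intro P y r S hP hr hS i
  have h1 := hC (nrm r y P) S ((deg_nrm _ _ _).trans hP) (by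
    intro v hv
    rw [eval_nrm]
    refine hS _ fun i => ?_
    have e : r * v i + y i - y i = r * v i := by ring
    rw [e, abs_mul, abs_of_pos hr]
    calc r * |v i| ≤ r * 1 := mul_le_mul_of_nonneg_left (hv i) hr.le
      _ = r := mul_one _) (Finsupp.single i 1)
  unfold nrm at h1
  rw [coeff_scl, coeff_shift_single, Finsupp.degree_single, pow_one, abs_mul, abs_of_pos hr] at h1
  rw [le_div_iff₀ hr]
  linarith

/-- Rounding with an offset. -/
lemma round_near {x θ : ℝ} (h0 : 0 ≤ θ) (h1 : θ < 1) : |x - (⌊x + θ⌋ : ℤ)| ≤ 1 := by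
  have a1 := Int.floor_le (x + θ)
  have a2 := Int.lt_floor_add_one (x + θ)
  rw [abs_le]
  constructor <;> linarith

end Pool.Agent.H67.BFL
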