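import Pool.Agent.H67.BFL.Clo1
import Pool.Agent.H19.BFL.Stmts4

/-!
# Board kbfo, row CLO: closed labels of finitely many labels of a family
-/

set_option autoImplicit false

namespace Pool.Agent.H67.BFL

open Finset MvPolynomial Pool.BFL
open Pool.Agent.H49.Ent Pool.Agent.H32.Dense Pool.STK Pool.KS3 Pool.KA Pool.KSAT Pool.K2S Pool.PB
open Pool.Agent.H36.KBX (bx mem_bx shift eval_shift totalDegree_shift coef_bound eval_bound)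

/-- A random grid, used for a family of small total discrepancy. -/
lemma rgr_use (hRGR : RGRStmt) {Ω ι : Type} [Fintype Ω] [Fintype ι] {p : Ω → ℝ} (hp : IsLaw p)
    (A : Ω → Prop) (f f' : ι → Ω → ℝ) (δ : ℝ) (hδ : 0 ≤ δ)
    (h : ∀ i ω, A ω → |f i ω - f' i ω| ≤ δ) (hc : Fintype.card ι * δ ≤ 1 / 4) :
    ∃ (θ : ℝ) (A' : Ω → Prop), 0 ≤ θ ∧ θ < 1 ∧ Sub A' A ∧ 3 / 4 * Pe p A ≤ Pe p A' ∧
      ∀ ω, A' ω → ∀ i, ⌊f i ω + θ⌋ = ⌊f' i ω + θ⌋ := by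
  obtain ⟨θ, h0, h1, h2⟩ := hRGR Ω ι p A f f' (fun _ => δ) hp (fun _ => hδ) h
  refine ⟨θ, fun ω => A ω ∧ ∀ i, ⌊f i ω + θ⌋ = ⌊f' i ω + θ⌋, h0, h1, fun ω hω => hω.1, ?_,
    fun ω hω => hω.2⟩
  have h3 := Pe_or hp (A := A) (B₀ := fun ω => A ω ∧ ∀ i, ⌊f i ω + θ⌋ = ⌊f' i ω + θ⌋)
    (B₁ := fun ω => A ω ∧ ∃ i, ⌊f i ω + θ⌋ ≠ ⌊f' i ω + θ⌋) (fun ω hω => by
      by_cases h4 : ∀ i, ⌊f i ω + θ⌋ = ⌊f' i ω + θ⌋
      · exact Or.inl ⟨hω, h4⟩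
      · push Not at h4
        exact Or.inr ⟨hω, h4⟩)
  have h5 := Pe_nonneg hp A
  rw [Finset.sum_const, Finset.card_univ, nsmul_eq_mul] at h2
  have h6 := mul_le_mul_of_nonneg_right hc h5
  linarith

/-- A rounded label: window, rounded position, rounded coefficients. -/
abbrev Lbl (m : ℕ) : Type := (ℕ × (Fin m → ℤ)) × ((Fin m →₀ ℕ) → ℤ)

/-- The centre of a label. -/
noncomputable def cen {m : ℕ} (i₁ : Fin m) (a w : ℕ) (x : ℕ × (Fin m → ℤ)) (i : Fin m) : ℝ :=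
  if i = i₁ then (x.1 : ℝ) / 2 ^ w else 2 ^ a / 2 ^ w * x.2 i

/-- The polynomial of a label. -/
noncomputable def lpol {m : ℕ} (K : ℕ) (i₁ : Fin m) (a w P : ℕ) (x : Lbl m) : Pl m :=
  rcs K (2 ^ a / 2 ^ w) (cen i₁ a w x.1) fun d => 2 ^ ((m * K + 2) * a) / 2 ^ P * x.2 d

variable {m J : ℕ}

/-- The rounded position, from the visible point. -/
noncomputable def ppt (F : Fam m J) (r a w : ℕ) (θ : ℝ) (y : (Fin m → ℤ) × (ℕ × F.ζ)) :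
    ℕ × (Fin m → ℤ) :=
  (y.2.1 / 2 ^ (J - w), fun i => ⌊2 ^ w / 2 ^ a * ((y.1 i : ℝ) / 2 ^ r) + θ⌋)

/-- The rounded position, from the window. -/
noncomputable def pwn (F : Fam m J) (a w : ℕ) (θ : ℝ)
    (s : ((Fin m → ℝ) × (Fin m → ℝ)) × F.ζ × ℕ) : ℕ × (Fin m → ℤ) :=
  (s.2.2, fun i => ⌊2 ^ w / 2 ^ a * (s.1.1 i + (s.2.2 : ℝ) / 2 ^ w * s.1.2 i) + θ⌋)

lemma pos_near (F : Fam m J) {r w : ℕ} (hw : w ≤ r) (ω : F.Ω) (i : Fin m) :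
    |F.x ω i - (F.X r ω i : ℝ) / 2 ^ r| ≤ 1 / 2 ^ w := by
  have h1 : F.X r ω i = ⌊(2 : ℝ) ^ r * F.x ω i⌋ := rfl
  have h2 := Int.floor_le ((2 : ℝ) ^ r * F.x ω i)
  have h3 := Int.lt_floor_add_one ((2 : ℝ) ^ r * F.x ω i)
  rw [← h1] at h2 h3
  have hr : (0 : ℝ) < 2 ^ r := by positivity
  have e : F.x ω i - (F.X r ω i : ℝ) / 2 ^ r = (2 ^ r * F.x ω i - F.X r ω i) / 2 ^ r := by
    field_simp
  refine le_trans ?_ (inv_mono hw)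
  rw [e, abs_div, abs_of_pos hr]
  refine div_le_div_of_nonneg_right ?_ hr.le
  rw [abs_le]
  constructor <;> linarith

lemma win_near (F : Fam m J) {w : ℕ} (hw : w ≤ J) (ω : F.Ω) (i : Fin m) :
    |F.x ω i - F.x1 w ω i| ≤ 1 / 2 ^ w := by
  obtain ⟨h1, h2⟩ := T1_real F hw ω
  have hr : (0 : ℝ) < 2 ^ w := by positivity
  have e : F.x ω i - F.x1 w ω i = (F.t ω - (F.T1 w ω : ℝ) / 2 ^ w) * F.d ω i := by
    unfold Fam.x Fam.x1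
    ring
  have e2 : F.t ω - (F.T1 w ω : ℝ) / 2 ^ w = (2 ^ w * F.t ω - F.T1 w ω) / 2 ^ w := by
    field_simp
  rw [e, abs_mul, e2, abs_div, abs_of_pos hr, abs_of_nonneg h1]
  have h3 := F.dir ω i
  have h4 : (2 ^ w * F.t ω - F.T1 w ω) / 2 ^ w ≤ 1 / 2 ^ w :=
    div_le_div_of_nonneg_right h2.le hr.le
  calc (2 ^ w * F.t ω - F.T1 w ω) / 2 ^ w * |F.d ω i| ≤ 1 / 2 ^ w * 1 :=
        mul_le_mul h4 h3 (abs_nonneg _) (by positivity)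
    _ = _ := mul_one _

lemma grid_near (F : Fam m J) {r w a : ℕ} (hw : w ≤ r) (hr : r ≤ J) (ω : F.Ω) (i : Fin m) :
    |2 ^ w / 2 ^ a * ((F.X r ω i : ℝ) / 2 ^ r) - 2 ^ w / 2 ^ a * F.x1 w ω i| ≤ 2 / 2 ^ a := by
  have h1 := pos_near F hw ω i
  have h2 := win_near F (hw.trans hr) ω i
  have e : 2 ^ w / 2 ^ a * ((F.X r ω i : ℝ) / 2 ^ r) - 2 ^ w / 2 ^ a * F.x1 w ω i =
      2 ^ w / 2 ^ a * ((F.x ω i - F.x1 w ω i) - (F.x ω i - (F.X r ω i : ℝ) / 2 ^ r)) := by ring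
  have hp : (0 : ℝ) < 2 ^ w / 2 ^ a := by positivity
  rw [e, abs_mul, abs_of_pos hp]
  have h3 : |(F.x ω i - F.x1 w ω i) - (F.x ω i - (F.X r ω i : ℝ) / 2 ^ r)| ≤ 2 / 2 ^ w := by
    have h4 := abs_sub (F.x ω i - F.x1 w ω i) (F.x ω i - (F.X r ω i : ℝ) / 2 ^ r)
    have h5 : (2 : ℝ) / 2 ^ w = 1 / 2 ^ w + 1 / 2 ^ w := by ring
    linarith
  calc 2 ^ w / 2 ^ a * |(F.x ω i - F.x1 w ω i) - (F.x ω i - (F.X r ω i : ℝ) / 2 ^ r)| ≤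
        2 ^ w / 2 ^ a * (2 / 2 ^ w) := mul_le_mul_of_nonneg_left h3 hp.le
    _ = 2 / 2 ^ a := by field_simp

/-- The centre is close to the base point. -/
lemma cen_near (F : Fam m J) (i₁ : Fin m) {r w : ℕ} (a : ℕ) (hw : w ≤ r) (hr : r ≤ J) {θ : ℝ}
    (h0 : 0 ≤ θ) (h1 : θ < 1) (ω : F.Ω) (i : Fin m) :
    |bp F i₁ ω i - cen i₁ a w (ppt F r a w θ (ptr F r ω)) i| ≤ 2 * (2 ^ a * (1 / 2 ^ w)) := by
  have hW : (0 : ℝ) < 2 ^ w := by positivity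
  have hA : (1 : ℝ) ≤ 2 ^ a := one_le_pow₀ (by norm_num)
  have hA1 : (1 : ℝ) / 2 ^ w ≤ 2 ^ a * (1 / 2 ^ w) := by
    calc (1 : ℝ) / 2 ^ w = 1 * (1 / 2 ^ w) := (one_mul _).symm
      _ ≤ _ := mul_le_mul_of_nonneg_right hA (by positivity)
  by_cases hi : i = i₁
  · subst hi
    have e : cen i a w (ppt F r a w θ (ptr F r ω)) i = (F.T1 w ω : ℝ) / 2 ^ w := by
      unfold cen
      rw [if_pos rfl]
      rfl
    have e1 : bp F i ω i = F.t ω := by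
      unfold bp
      rw [Function.update_self]
    rw [e, e1]
    obtain ⟨h3, h4⟩ := T1_real F (hw.trans hr) ω
    have e2 : F.t ω - (F.T1 w ω : ℝ) / 2 ^ w = (2 ^ w * F.t ω - F.T1 w ω) / 2 ^ w := by
      field_simp
    rw [e2, abs_div, abs_of_pos hW, abs_of_nonneg h3]
    have h5 : (2 ^ w * F.t ω - F.T1 w ω) / 2 ^ w ≤ 1 / 2 ^ w :=
      div_le_div_of_nonneg_right h4.le hW.le
    have h6 : (0 : ℝ) ≤ 2 ^ a * (1 / 2 ^ w) := by positivity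
    linarith
  · have e1 : bp F i₁ ω i = F.x ω i := by
      unfold bp
      rw [Function.update_of_ne hi]
    obtain ⟨N, hN⟩ : ∃ N : ℤ, N = ⌊2 ^ w / 2 ^ a * ((F.X r ω i : ℝ) / 2 ^ r) + θ⌋ := ⟨_, rfl⟩
    have e : cen i₁ a w (ppt F r a w θ (ptr F r ω)) i = 2 ^ a / 2 ^ w * N := by
      unfold cen
      rw [if_neg hi, hN]
      rfl
    have h3 := round_near (x := 2 ^ w / 2 ^ a * ((F.X r ω i : ℝ) / 2 ^ r)) h0 h1
    rw [← hN] at h3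
    have h4 := pos_near F hw ω i
    have e2 : F.x ω i - 2 ^ a / 2 ^ w * N = (F.x ω i - (F.X r ω i : ℝ) / 2 ^ r) +
        2 ^ a / 2 ^ w * (2 ^ w / 2 ^ a * ((F.X r ω i : ℝ) / 2 ^ r) - N) := by
      field_simp
      ring
    have h5 : |2 ^ a / 2 ^ w * (2 ^ w / 2 ^ a * ((F.X r ω i : ℝ) / 2 ^ r) - N)| ≤
        2 ^ a * (1 / 2 ^ w) := by
      rw [abs_mul, abs_of_pos (by positivity : (0 : ℝ) < 2 ^ a / 2 ^ w)]
      calc (2 : ℝ) ^ a / 2 ^ w * |2 ^ w / 2 ^ a * ((F.X r ω i : ℝ) / 2 ^ r) - N| ≤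
            2 ^ a / 2 ^ w * 1 := mul_le_mul_of_nonneg_left h3 (by positivity)
        _ = _ := by ring
    rw [e, e1, e2]
    refine (abs_add_le _ _).trans ?_
    linarith

/-- The coefficient functions. -/
noncomputable def ccf (K : ℕ) (i₁ : Fin m) (a w P : ℕ) (x : ℕ × (Fin m → ℤ)) (Q : Pl m)
    (d : Fin m →₀ ℕ) : ℝ :=
  2 ^ P / 2 ^ ((m * K + 2) * a) * coeff d (nrm (2 ^ a / 2 ^ w) (cen i₁ a w x) Q)

open Classical in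
/-- The rounded label. -/
noncomputable def rlb (K : ℕ) (i₁ : Fin m) (a w P : ℕ) (θ : ℝ) (x : ℕ × (Fin m → ℤ)) (Q : Pl m) :
    Lbl m :=
  (x, fun d => if d ∈ bx m K then ⌊ccf K i₁ a w P x Q d + θ⌋ else 0)

/-- The polynomial of the rounded label is close to the polynomial. -/
lemma rlb_near {K : ℕ} (i₁ : Fin m) (a w P : ℕ) {θ : ℝ} (h0 : 0 ≤ θ) (h1 : θ < 1)
    (x : ℕ × (Fin m → ℤ)) {Q : Pl m} (hQ : Q.totalDegree ≤ K) (b : Fin m → ℝ)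
    (hb : ∀ i, |b i - cen i₁ a w x i| ≤ 4 * (2 ^ a / 2 ^ w)) :
    |eval b Q - eval b (lpol K i₁ a w P (rlb K i₁ a w P θ x Q))| ≤
      (bx m K).card * (2 ^ ((m * K + 2) * a) / 2 ^ P * 4 ^ (m * K)) := by
  unfold lpol
  refine rcs_near hQ (by positivity) (by positivity) _ _ ?_ b hb
  intro d hd
  have h2 : (rlb K i₁ a w P θ x Q).2 d = ⌊ccf K i₁ a w P x Q d + θ⌋ := by
    unfold rlb
    simp only
    rw [if_pos (deg_le_bx hd)]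
  rw [h2]
  have h3 := round_near (x := ccf K i₁ a w P x Q d) h0 h1
  have hp : (0 : ℝ) < 2 ^ ((m * K + 2) * a) / 2 ^ P := by positivity
  have e : coeff d (nrm (2 ^ a / 2 ^ w) (cen i₁ a w x) Q) =
      2 ^ ((m * K + 2) * a) / 2 ^ P * ccf K i₁ a w P x Q d := by
    unfold ccf
    field_simp
  have e1 : (rlb K i₁ a w P θ x Q).1 = x := rfl
  rw [e1, e, ← mul_sub, abs_mul, abs_of_pos hp]
  calc (2 : ℝ) ^ ((m * K + 2) * a) / 2 ^ P *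
        |ccf K i₁ a w P x Q d - ((⌊ccf K i₁ a w P x Q d + θ⌋ : ℤ) : ℝ)| ≤
        2 ^ ((m * K + 2) * a) / 2 ^ P * 1 := mul_le_mul_of_nonneg_left h3 hp.le
    _ = _ := mul_one _

end Pool.Agent.H67.BFL
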