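import Pool.Agent.H67.BFL.Clo2

/-!
# Board kbfo, row CLO: the closed labels of finitely many labels
-/

set_option autoImplicit false

namespace Pool.Agent.H67.BFL

open Finset MvPolynomial Pool.BFL
open Pool.Agent.H49.Ent Pool.Agent.H32.Dense Pool.STK Pool.KS3 Pool.KA Pool.KSAT Pool.K2S Pool.PB
open Pool.Agent.H36.KBX (bx mem_bx shift eval_shift totalDegree_shift coef_bound eval_bound)

/-- The choice of the parameter of the grids. -/
lemma par_a (E : ℕ) (κ C₀ : ℝ) (hκ : 0 < κ) (hC₀ : 0 ≤ C₀) : ∃ z₀ : ℕ, ∀ z : ℕ, z₀ ≤ z →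
    ∃ a : ℕ, C₀ ≤ 2 ^ a ∧ (2 : ℝ) ^ ((E + 2) * a) ≤ Real.exp (κ / 8 * z) ∧
      (2 : ℝ) ^ a ≤ Real.exp (κ / 8 * z) ∧ C₀ ≤ Real.exp (κ / 8 * z) := by
  have hE : (0 : ℝ) < 8 * ((E : ℝ) + 3) := by positivity
  refine ⟨⌈(C₀ + 2) * (8 * ((E : ℝ) + 3) / κ)⌉₊, fun z hz => ?_⟩
  have h1 : (C₀ + 2) * (8 * ((E : ℝ) + 3) / κ) ≤ z := (Nat.le_ceil _).trans (by exact_mod_cast hz)
  have h2 : C₀ + 2 ≤ κ * z / (8 * ((E : ℝ) + 3)) := by
    rw [le_div_iff₀ hE]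
    have := mul_le_mul_of_nonneg_left h1 hκ.le
    have e : κ * ((C₀ + 2) * (8 * ((E : ℝ) + 3) / κ)) = (C₀ + 2) * (8 * ((E : ℝ) + 3)) := by
      field_simp
    linarith
  obtain ⟨a, ha⟩ : ∃ a : ℕ, a = ⌊κ * z / (8 * ((E : ℝ) + 3))⌋₊ := ⟨_, rfl⟩
  have h3 : (a : ℝ) ≤ κ * z / (8 * ((E : ℝ) + 3)) := by
    rw [ha]
    exact Nat.floor_le (by positivity)
  have h4 : κ * z / (8 * ((E : ℝ) + 3)) < a + 1 := by
    rw [ha]
    exact Nat.lt_floor_add_one _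
  have h5 : (a : ℝ) * (8 * ((E : ℝ) + 3)) ≤ κ * z := (le_div_iff₀ hE).1 h3
  have hl : Real.log 2 ≤ 1 := by
    have := Real.log_two_lt_d9
    linarith
  have hl0 : 0 < Real.log 2 := Real.log_pos (by norm_num)
  have key : ∀ b : ℕ, b ≤ E + 3 → (2 : ℝ) ^ (b * a) ≤ Real.exp (κ / 8 * z) := by
    intro b hb
    have e : (2 : ℝ) ^ (b * a) = Real.exp (((b * a : ℕ) : ℝ) * Real.log 2) := by
      rw [Real.exp_nat_mul, Real.exp_log (by norm_num)]
    rw [e]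
    refine Real.exp_le_exp.2 ?_
    have hb' : (b : ℝ) ≤ E + 3 := by exact_mod_cast hb
    have ha0 : (0 : ℝ) ≤ a := by positivity
    have h6 : (b : ℝ) * a ≤ (E + 3) * a := mul_le_mul_of_nonneg_right hb' ha0
    have h7 : ((b * a : ℕ) : ℝ) * Real.log 2 ≤ ((b * a : ℕ) : ℝ) * 1 :=
      mul_le_mul_of_nonneg_left hl (by positivity)
    push_cast at h7 ⊢
    nlinarith
  refine ⟨a, ?_, key (E + 2) (by omega), ?_, ?_⟩
  · have h6 : ((a : ℕ) : ℝ) ≤ 2 ^ a := by exact_mod_cast (Nat.lt_two_pow_self (n := a)).le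
    linarith
  · have := key 1 (by omega)
    rwa [one_mul] at this
  · have h6 := Real.add_one_le_exp (κ / 8 * z)
    have h7 : C₀ + 2 ≤ κ / 8 * z := by
      rw [le_div_iff₀ hE] at h2
      have h8 : (C₀ + 2) * 8 ≤ (C₀ + 2) * (8 * ((E : ℝ) + 3)) := by
        refine mul_le_mul_of_nonneg_left ?_ (by linarith)
        have : (0 : ℝ) ≤ E := by positivity
        linarith
      linarith
    linarith

/-- **Closed labels of finitely many labels of a family.** The labels `x` are polynomials `G x` of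
the visible point and `H x` of the window of level `wl x`, which agree up to `2 ^ (-P x)` on the
ball of level `lv x`. On an event of probability at least one half, the rounded label `cl x` is a
function of the visible point and of the window of level `lv x`, and gives the polynomial. -/
theorem clo_gen (hRGR : RGRStmt) (m K N : ℕ) (κ : ℝ) (hκ : 0 < κ) :
    ∃ z₀ : ℕ, ∀ (J r z : ℕ) (F : Fam m J) (i₁ : Fin m) (A : F.Ω → Prop) (ι : Type) [Fintype ι]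
      (lv wl P : ι → ℕ) (G : ι → (Fin m → ℤ) × (ℕ × F.ζ) → Pl m)
      (H : ι → ((Fin m → ℝ) × (Fin m → ℝ)) × F.ζ × ℕ → Pl m), z₀ ≤ z → r ≤ J →
      Fintype.card ι ≤ N → (∀ x, wl x ≤ lv x) → (∀ x, lv x ≤ r) →
      (∀ x y, (G x y).totalDegree ≤ K) → (∀ x s, (H x s).totalDegree ≤ K) →
      (∀ x ω, A ω → ∀ b : Fin m → ℝ, (∀ j, |b j - bp F i₁ ω j| ≤ 1 / 2 ^ lv x) →
        |eval b (G x (ptr F r ω)) - eval b (H x (slam F (wl x) ω))| ≤ 1 / 2 ^ P x) →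
      ∃ (cl : ι → F.Ω → Lbl m) (y₀ : ι → Lbl m → Fin m → ℝ) (Φ : ι → Lbl m → Pl m)
        (A' : F.Ω → Prop), Sub A' A ∧ 1 / 2 * Pe F.p A ≤ Pe F.p A' ∧
        (∀ x ω ω', ptr F r ω = ptr F r ω' → cl x ω = cl x ω') ∧
        (∀ x ω ω', A' ω → A' ω' → slam F (lv x) ω = slam F (lv x) ω' → cl x ω = cl x ω') ∧
        (∀ x ω, (cl x ω).1.1 = F.T1 (lv x) ω) ∧
        (∀ x ω i, |bp F i₁ ω i - y₀ x (cl x ω) i| ≤ Real.exp (κ * z) / 2 ^ lv x) ∧
        (∀ x l, (Φ x l).totalDegree ≤ K) ∧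
        ∀ x ω, A' ω → ∀ b : Fin m → ℝ, (∀ j, |b j - bp F i₁ ω j| ≤ 1 / 2 ^ lv x) →
          |eval b (G x (ptr F r ω)) - eval b (Φ x (cl x ω))| ≤ Real.exp (κ * z) / 2 ^ P x := by
  obtain ⟨C, hC0, hC⟩ := coef_ball m K
  obtain ⟨Bc, hBc⟩ : ∃ Bc : ℝ, Bc = (bx m K).card := ⟨_, rfl⟩
  have hB0 : 0 ≤ Bc := by rw [hBc]; positivity
  obtain ⟨C₀, hC₀⟩ : ∃ C₀ : ℝ, C₀ = 2 + 8 * (N * m) + 4 * (N * Bc * C) + Bc * 4 ^ (m * K) :=
    ⟨_, rfl⟩
  have q1 : 0 ≤ (N : ℝ) * m := by positivity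
  have q2 : 0 ≤ (N : ℝ) * Bc * C := by positivity
  have q3 : 0 ≤ Bc * 4 ^ (m * K) := by positivity
  obtain ⟨z₀, hz₀⟩ := par_a (m * K) κ C₀ hκ (by rw [hC₀]; positivity)
  refine ⟨z₀, ?_⟩
  intro J r z F i₁ A ι _ lv wl P G H hz hr hN hwl hlv hG hH hGH
  obtain ⟨a, ha1, ha2, ha3, ha4⟩ := hz₀ z hz
  have hp := F.isLaw
  have hA : (0 : ℝ) < 2 ^ a := by positivity
  have hexp : Real.exp (κ / 8 * z) * Real.exp (κ / 8 * z) ≤ Real.exp (κ * z) := by
    rw [← Real.exp_add]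
    refine Real.exp_le_exp.2 ?_
    have : 0 ≤ κ * z := by positivity
    linarith
  have hcard : (Fintype.card ι : ℝ) ≤ N := by exact_mod_cast hN
  -- positions
  obtain ⟨θ₁, A₁, t0, t1, hA₁, hP₁, hE₁⟩ := rgr_use hRGR hp A
    (fun (y : ι × Fin m) ω => 2 ^ lv y.1 / 2 ^ a * ((F.X r ω y.2 : ℝ) / 2 ^ r))
    (fun (y : ι × Fin m) ω => 2 ^ lv y.1 / 2 ^ a * F.x1 (lv y.1) ω y.2) (2 / 2 ^ a)
    (by positivity) (fun y ω _ => grid_near F (hlv y.1) hr ω y.2) (by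
      rw [Fintype.card_prod, Fintype.card_fin, mul_div_assoc', div_le_iff₀ hA]
      push_cast
      have h1 : (Fintype.card ι : ℝ) * m ≤ N * m := mul_le_mul_of_nonneg_right hcard (by positivity)
      linarith)
  have hpos : ∀ x ω, A₁ ω → ppt F r a (lv x) θ₁ (ptr F r ω) =
      pwn F a (lv x) θ₁ (slam F (lv x) ω) := by
    intro x ω hω
    refine Prod.ext rfl ?_
    funext i
    exact hE₁ ω hω (x, i)
  -- coefficients
  have hcoef : ∀ (y : ι × {d // d ∈ bx m K}) (ω : F.Ω), A₁ ω →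
      |ccf K i₁ a (lv y.1) (P y.1) (ppt F r a (lv y.1) θ₁ (ptr F r ω)) (G y.1 (ptr F r ω)) y.2 -
        ccf K i₁ a (lv y.1) (P y.1) (ppt F r a (lv y.1) θ₁ (ptr F r ω))
          (H y.1 (slam F (wl y.1) ω)) y.2| ≤ C / 2 ^ a := by
    rintro ⟨x, d⟩ ω hω
    simp only
    unfold ccf
    rw [← mul_sub, ← coeff_nrm_sub, abs_mul, abs_of_pos (by positivity :
      (0 : ℝ) < 2 ^ P x / 2 ^ ((m * K + 2) * a))]
    have h1 := hC (G x (ptr F r ω) - H x (slam F (wl x) ω)) (bp F i₁ ω)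
      (cen i₁ a (lv x) (ppt F r a (lv x) θ₁ (ptr F r ω))) (1 / 2 ^ lv x) (2 ^ a) (1 / 2 ^ P x)
      ((totalDegree_sub _ _).trans (max_le (hG _ _) (hH _ _))) (by positivity)
      (one_le_pow₀ (by norm_num)) (fun i => cen_near F i₁ a (hlv x) hr t0 t1 ω i)
      (fun b hb => by
        rw [map_sub]
        exact hGH x ω (hA₁ ω hω) b hb) d
    have e1 : (2 : ℝ) ^ a * (1 / 2 ^ lv x) = 2 ^ a / 2 ^ lv x := by ring
    rw [e1] at h1
    have e2 : (2 : ℝ) ^ ((m * K + 2) * a) = (2 ^ a) ^ (m * K) * 2 ^ a * 2 ^ a := by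
      rw [← pow_mul, ← pow_add, ← pow_add]
      congr 1
      ring
    have h2 : (1 : ℝ) ≤ 2 ^ a := one_le_pow₀ (by norm_num)
    calc (2 : ℝ) ^ P x / 2 ^ ((m * K + 2) * a) * |coeff (d : Fin m →₀ ℕ) (nrm (2 ^ a / 2 ^ lv x)
          (cen i₁ a (lv x) (ppt F r a (lv x) θ₁ (ptr F r ω)))
          (G x (ptr F r ω) - H x (slam F (wl x) ω)))| ≤
          2 ^ P x / 2 ^ ((m * K + 2) * a) * (C * (2 ^ a) ^ (m * K) * (1 / 2 ^ P x)) :=
          mul_le_mul_of_nonneg_left h1 (by positivity)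
      _ = C / (2 ^ a * 2 ^ a) := by rw [e2]; field_simp
      _ ≤ C / 2 ^ a := by
          refine div_le_div_of_nonneg_left hC0 (by positivity) ?_
          nlinarith
  obtain ⟨θ₂, A₂, s0, s1, hA₂, hP₂, hE₂⟩ := rgr_use hRGR hp A₁
    (fun (y : ι × {d // d ∈ bx m K}) ω => ccf K i₁ a (lv y.1) (P y.1)
      (ppt F r a (lv y.1) θ₁ (ptr F r ω)) (G y.1 (ptr F r ω)) y.2)
    (fun (y : ι × {d // d ∈ bx m K}) ω => ccf K i₁ a (lv y.1) (P y.1)
      (ppt F r a (lv y.1) θ₁ (ptr F r ω)) (H y.1 (slam F (wl y.1) ω)) y.2) (C / 2 ^ a)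
    (by positivity) hcoef (by
      rw [Fintype.card_prod, Fintype.card_coe, mul_div_assoc', div_le_iff₀ hA]
      push_cast
      rw [← hBc]
      have h1 : (Fintype.card ι : ℝ) * Bc * C ≤ N * Bc * C :=
        mul_le_mul_of_nonneg_right (mul_le_mul_of_nonneg_right hcard hB0) hC0
      linarith)
  refine ⟨fun x ω => rlb K i₁ a (lv x) (P x) θ₂ (ppt F r a (lv x) θ₁ (ptr F r ω))
    (G x (ptr F r ω)), fun x l => cen i₁ a (lv x) l.1, fun x l => lpol K i₁ a (lv x) (P x) l, A₂,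
    fun ω hω => hA₁ ω (hA₂ ω hω), ?_, ?_, ?_, ?_, ?_, ?_, ?_⟩
  · have := Pe_nonneg hp A
    linarith
  · intro x ω ω' h
    simp only
    rw [h]
  · intro x ω ω' hω hω' h
    have key : ∀ ω, A₂ ω → rlb K i₁ a (lv x) (P x) θ₂ (ppt F r a (lv x) θ₁ (ptr F r ω))
        (G x (ptr F r ω)) = rlb K i₁ a (lv x) (P x) θ₂ (pwn F a (lv x) θ₁ (slam F (lv x) ω))
        (H x ((slam F (lv x) ω).1, (slam F (lv x) ω).2.1,
          (slam F (lv x) ω).2.2 / 2 ^ (lv x - wl x))) := by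
      intro ω hω
      have h1 := hpos x ω (hA₂ ω hω)
      have h2 := hE₂ ω hω
      refine Prod.ext h1 ?_
      funext d
      unfold rlb
      simp only
      by_cases hd : d ∈ bx m K
      · rw [if_pos hd, if_pos hd]
        have h3 := h2 (x, ⟨d, hd⟩)
        simp only at h3
        rw [h3, h1, slam_coarse F (hwl x) ((hlv x).trans hr) ω]
      · rw [if_neg hd, if_neg hd]
    simp only
    rw [key ω hω, key ω' hω', h]
  · intro x ω
    rfl
  · intro x ω i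
    refine (cen_near F i₁ a (hlv x) hr t0 t1 ω i).trans ?_
    have h1 : (2 : ℝ) * 2 ^ a ≤ Real.exp (κ * z) := by
      refine le_trans ?_ hexp
      refine mul_le_mul ?_ ha3 (by positivity) (by positivity)
      refine le_trans ?_ ha4
      rw [hC₀]
      linarith
    calc (2 : ℝ) * (2 ^ a * (1 / 2 ^ lv x)) = (2 * 2 ^ a) / 2 ^ lv x := by ring
      _ ≤ _ := div_le_div_of_nonneg_right h1 (by positivity)
  · intro x l
    exact deg_rcs _ _ _ _
  · intro x ω hω b hb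
    have h1 := rlb_near i₁ a (lv x) (P x) s0 s1 (ppt F r a (lv x) θ₁ (ptr F r ω))
      (hG x (ptr F r ω)) b (fun i => by
        have h2 := hb i
        have h3 := cen_near F i₁ a (hlv x) hr t0 t1 ω i
        have h4 : (1 : ℝ) / 2 ^ lv x ≤ 2 ^ a / 2 ^ lv x :=
          div_le_div_of_nonneg_right (one_le_pow₀ (by norm_num)) (by positivity)
        have e1 : (2 : ℝ) * (2 ^ a * (1 / 2 ^ lv x)) = 2 * (2 ^ a / 2 ^ lv x) := by ring
        have h5 : (0 : ℝ) < 2 ^ a / 2 ^ lv x := by positivity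
        rw [e1] at h3
        calc |b i - cen i₁ a (lv x) (ppt F r a (lv x) θ₁ (ptr F r ω)) i| ≤
              |b i - bp F i₁ ω i| +
                |bp F i₁ ω i - cen i₁ a (lv x) (ppt F r a (lv x) θ₁ (ptr F r ω)) i| :=
              abs_sub_le _ _ _
          _ ≤ _ := by linarith)
    refine h1.trans ?_
    have h6 : Bc * 4 ^ (m * K) * 2 ^ ((m * K + 2) * a) ≤ Real.exp (κ * z) := by
      refine le_trans ?_ hexp
      refine mul_le_mul ?_ ha2 (by positivity) (by positivity)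
      refine le_trans ?_ ha4
      rw [hC₀]
      linarith
    rw [← hBc]
    calc Bc * (2 ^ ((m * K + 2) * a) / 2 ^ P x * 4 ^ (m * K)) =
          Bc * 4 ^ (m * K) * 2 ^ ((m * K + 2) * a) / 2 ^ P x := by ring
      _ ≤ _ := div_le_div_of_nonneg_right h6 (by positivity)

end Pool.Agent.H67.BFL
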