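import Pool.Agent.H19.BFL.Stmts
import Pool.Agent.H37.S3.CHN

/-!
# Board kbfl, row MCH: existence of the Markov chain
-/

set_option autoImplicit false

namespace Pool.Agent.H67.BFL

open Finset Real
open Pool.Agent.H49.Ent Pool.Agent.H32.Dense Pool.STK Pool.KS3 Pool.BFL

section

variable {Ω Ω' C W : Type} [Fintype Ω] [Fintype Ω'] [Fintype W]

open Classical in
lemma Pb_eq (q : W → ℝ) (A : W → Prop) : Pb q A = Ex q (fun w => if A w then (1 : ℝ) else 0) := by
  unfold Pb Ex
  refine Finset.sum_congr rfl fun w _ => ?_
  by_cases h : A w <;> simp [h]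

lemma Pb_marg {q : W → ℝ} {p : Ω → ℝ} {pr : W → Ω} (h : Marg q p pr) (A : Ω → Prop) :
    Pb q (fun w => A (pr w)) = Pb p A := by
  classical
  rw [Pb_eq, Pb_eq]
  exact h.ex (fun ω => if A ω then (1 : ℝ) else 0)

lemma Pb_glue (p : Ω → ℝ) (g : Ω → C) (A : Ω → Ω → Prop) :
    Pb (glue p p g g) (fun w => A w.1 w.2) = P2 p g A := by
  classical
  unfold Pb P2
  rw [Fintype.sum_prod_type]
  refine Finset.sum_congr rfl fun ω _ => Finset.sum_congr rfl fun ω' _ => ?_
  unfold glue
  by_cases hA : A ω ω'
  · by_cases hg : g ω = g ω'
    · simp [hA, hg]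
    · simp [hA, hg]
  · simp [hA]

end

/-- Row MCH. -/
theorem mch_thm : MCHStmt := by
  classical
  intro Ω C _ p c M hp
  induction M with
  | zero =>
    exact ⟨Ω, inferInstance, p, fun _ w => w,
      { isLaw := hp
        marg := fun i _ => Marg.id p
        same := fun _ _ i hi => absurd hi (Nat.not_lt_zero i)
        markov := fun i hi => absurd hi (Nat.not_lt_zero i)
        pair := fun i hi => absurd hi (Nat.not_lt_zero i) }⟩
  | succ M ih =>
    obtain ⟨W, instW, q, z, hw⟩ := ih
    have hq0 := hw.isLaw.nonneg
    have hp0 := hp.nonneg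
    have hM := hw.marg M le_rfl
    have hZ : ∀ x, law q (fun w => c M (z M w)) x = law p (c M) x := fun x => hM.law (c M) x
    set Q := glue q p (fun w => c M (z M w)) (c M) with hQ
    have hQ0 : ∀ w, 0 ≤ Q w := glue_nonneg hq0 hp0
    have m1 : Marg Q q (fun w => w.1) := marg_fst hq0 hZ
    have m2 : Marg Q p (fun w => w.2) := marg_snd hp0 hZ
    have hQl : IsLaw Q := ⟨hQ0, by rw [m1.sum]; exact hw.isLaw.sum_one⟩
    have hpos : ∀ w, 0 < Q w → 0 < q w.1 ∧ 0 < p w.2 ∧ c M (z M w.1) = c M w.2 :=
      fun w hw' => (glue_pos_iff hq0 hp0 w).mp hw'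
    set Z : ℕ → W × Ω → Ω := fun i w => if i ≤ M then z i w.1 else w.2 with hZd
    have eZ : ∀ i ≤ M, Z i = fun w => z i w.1 := by
      intro i hi
      funext w
      simp only [hZd, if_pos hi]
    have eZ' : Z (M + 1) = fun w => w.2 := by
      funext w
      simp only [hZd]
      rw [if_neg (by omega)]
    refine ⟨W × Ω, inferInstance, Q, Z, hQl, ?_, ?_, ?_, ?_⟩
    · -- marg
      intro i hi
      rcases Nat.lt_or_ge M i with h | h
      · have : i = M + 1 := by omega
        subst this
        rw [eZ']
        exact m2
      · rw [eZ i h]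
        exact m1.comp (hw.marg i h)
    · -- same
      intro w hw' i hi
      rcases Nat.lt_succ_iff_lt_or_eq.mp hi with h | h
      · rw [eZ i h.le, eZ (i + 1) h]
        exact hw.same w.1 (hpos w hw').1 i h
      · subst h
        rw [eZ i le_rfl, eZ']
        exact (hpos w hw').2.2
    · -- markov
      intro i hi
      have hnew : CI Q (fun w => w.2) (fun w => w.1) (fun w => c M (z M w.1)) :=
        (CI_glue (Z₁ := fun w => c M (z M w)) (Z₂ := c M) hq0 hp0 hZ (fun w => w)
          (fun w => w)).symm hQ0
      rcases Nat.lt_succ_iff_lt_or_eq.mp hi with h | h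
      · -- the past, the future in `W`, the new variable
        have h1 : CI Q (fun w (k : Fin (M - i)) => z (i + 1 + k) w.1)
            (fun w (k : Fin (i + 1)) => z k w.1) (fun w => c i (z i w.1)) :=
          CI.marg (pr := fun w : W × Ω => w.1) (A := fun w (k : Fin (M - i)) => z (i + 1 + k) w)
            (B := fun w (k : Fin (i + 1)) => z k w) (Z := fun w => c i (z i w)) m1
            (hw.markov i h)
        have h2 : CI Q (fun w => w.2)
            (fun w => (((fun k : Fin (M - i) => z (i + 1 + k) w.1), c i (z i w.1)),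
              (fun k : Fin (i + 1) => z k w.1)))
            (fun w => c M (z M w.1)) :=
          hnew.mono_right hQ0 (by
            intro w w' _ _ e
            have e1 : w.1 = w'.1 := (Prod.ext_iff.mp e).1
            simp only [e1])
        have h3 := h2.weak hQ0
        have h4 : CI Q (fun w => w.2) (fun w (k : Fin (i + 1)) => z k w.1)
            (fun w => ((fun k : Fin (M - i) => z (i + 1 + k) w.1), c i (z i w.1))) := by
          refine h3.congr hQ0 ?_ ?_
          · intro w w' _ _ e
            exact (Prod.ext_iff.mp e).1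
          · intro w w' _ _ e
            refine Prod.ext e ?_
            have e1 := congrFun (Prod.ext_iff.mp e).1 ⟨M - i - 1, by omega⟩
            have e2 : i + 1 + (M - i - 1) = M := by omega
            simp only [e2] at e1
            exact congrArg (c M) e1
        have h5 := (h1.symm hQ0).chain hQ0 (h4.symm hQ0)
        have h6 := h5.symm hQ0
        have h7 := h6.mono_left hQ0 (A' := fun w (k : Fin (M + 1 - i)) => Z (i + 1 + k) w) (by
          intro w w' _ _ e
          funext k
          by_cases hk : i + 1 + k.val ≤ M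
          · simp only [hZd, if_pos hk]
            have e1 := congrFun (Prod.ext_iff.mp (Prod.ext_iff.mp e).1).1 ⟨k.val, by omega⟩
            exact e1
          · simp only [hZd, if_neg hk]
            exact (Prod.ext_iff.mp (Prod.ext_iff.mp e).1).2)
        refine h7.replace hQ0 (fun _ _ => rfl) ?_ ?_
        · intro w _
          funext k
          simp only [hZd]
          rw [if_pos (by omega)]
        · intro w _
          rw [eZ i h.le]
      · subst h
        have h2 := hnew.mono_right (B' := fun w (k : Fin (i + 1)) => Z k w) hQ0 (by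
          intro w w' _ _ e
          have e1 : w.1 = w'.1 := (Prod.ext_iff.mp e).1
          funext k
          have hk : (k : ℕ) ≤ i := by omega
          simp only [hZd, if_pos hk, e1])
        have h3 := h2.mono_left (A' := fun w (k : Fin (i + 1 - i)) => Z (i + 1 + k) w) hQ0 (by
          intro w w' _ _ e
          funext k
          have hk : ¬ (i + 1 + (k : ℕ) ≤ i) := by omega
          simp only [hZd, if_neg hk]
          exact (Prod.ext_iff.mp e).1)
        refine h3.replace hQ0 (fun _ _ => rfl) (fun _ _ => rfl) ?_
        intro w _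
        rw [eZ i le_rfl]
    · -- pair
      intro i hi A
      rcases Nat.lt_succ_iff_lt_or_eq.mp hi with h | h
      · rw [eZ i h.le, eZ (i + 1) h, ← hw.pair i h A]
        exact Pb_marg m1 (fun w => A (z i w) (z (i + 1) w))
      · subst h
        rw [eZ i le_rfl, eZ', ← Pb_glue]
        exact Pb_marg (Marg.glue (Z₁ := c i) (Z₂ := c i) hM (Marg.id p)) (fun w => A w.1 w.2)

end Pool.Agent.H67.BFL
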